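import Mathlib
import Pool.Agent.W99.Mon.Defs
import Pool.Agent.W99.Mon.IrrDefs
import Pool.Agent.W99.Mon.Deg2
import Pool.Agent.W99.Mon.Irr
import Pool.Agent.W99.Mon.Exist

/-!
# MP_151aca_mp: counting monster potentials at integer momentum

The equality `N_n(β) = d_n^{(β)}` fails for `β = 0`, `n = 2`: there is no monster potential of
momentum `0` and degree `2`, but the degree two part of the irreducible Virasoro module with
`c = -2`, `h = -1/8` has dimension one (the vector `L_{-2} v - 2 L_{-1}² v` of the Verma module is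
singular, while `L_{-1}² v` is not in the maximal proper submodule).

Outline of the first part. Near a pole `x₀` write the potential as `κ / (x - x₀)² + w(x)`. Solutions
with trivial monodromy are meromorphic (Gronwall's inequality along rays), so `κ = n (n - 1)` for an
integer `n`; two solutions with Wronskian `1` cannot both vanish to the second order, and for
`κ = 2` a solution with a simple pole gives `w'(x₀) = 0`. For `P = (t - a) (t - b)` this excludes
`a b = 0` (`κ = 31/4` or `63/4` at `x₀ = 0`) and `a = b` (`κ = 4`), and otherwise it gives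
`(a + 1) (a - b)³ = 8 a (a² + 12 a b + 3 b²)` and the equation with `a` and `b` exchanged; they imply
`a + b = 0` and `a b = 0`.
-/

set_option autoImplicit false

namespace Pool.Agent.Results.MP_151aca_mp.MomentumZeroDegreeTwo

open Pool.Agent.W99.Mon

/-- **Q1 is false.** For `β = 0` and `n = 2` there are `N_2(0) = 0` monster potentials. For
`h = (β² - 1) / 8 = -1/8` the irreducible highest weight module of the Virasoro algebra with
`c = -2` exists, and the degree two part (the eigenspace of `L_0` for the eigenvalue `h + 2`) of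
every such module has dimension `1`. So it is not true that `N_n(β) = d_n^{(β)}` for all integers
`β` and all `n ≥ 0`. -/
theorem result :
    numMonster ((0 : ℤ) : ℂ) 2 = 0 ∧
    (∃ (V : Type) (_ : AddCommGroup V) (_ : Module ℂ V) (L : ℤ → Module.End ℂ V) (v : V),
      IsIrreducibleHW (-2) (-1 / 8) L v) ∧
    (∀ (V : Type) [AddCommGroup V] [Module ℂ V] (L : ℤ → Module.End ℂ V) (v : V),
      IsIrreducibleHW (-2) (-1 / 8) L v →
        Module.finrank ℂ (Module.End.eigenspace (L 0) (-1 / 8 + 2)) = 1) ∧
    ¬ ∀ (β : ℤ) (n : ℕ) (V : Type) [AddCommGroup V] [Module ℂ V] (L : ℤ → Module.End ℂ V) (v : V),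
      IsIrreducibleHW (-2) (((β : ℂ) ^ 2 - 1) / 8) L v →
        numMonster (β : ℂ) n =
          (Module.finrank ℂ (Module.End.eigenspace (L 0) (((β : ℂ) ^ 2 - 1) / 8 + n)) : ℕ∞) := by
  have h1 : numMonster ((0 : ℤ) : ℂ) 2 = 0 := by
    rw [Int.cast_zero]
    exact numMonster_zero_two
  have h2 : ∃ (V : Type) (_ : AddCommGroup V) (_ : Module ℂ V) (L : ℤ → Module.End ℂ V) (v : V),
      IsIrreducibleHW (-2) (-1 / 8) L v := exists_irreducible _ _
  refine ⟨h1, h2, fun V _ _ L v H => finrank_degree_two H, fun h => ?_⟩
  obtain ⟨V, _, _, L, v, H⟩ := h2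
  have e : (((0 : ℤ) : ℂ) ^ 2 - 1) / 8 = -1 / 8 := by
    push_cast
    norm_num
  have h3 := h 0 2 V L v
  rw [e] at h3
  have h4 := h3 H
  rw [h1] at h4
  have h5 : Module.finrank ℂ (Module.End.eigenspace (L 0) (-1 / 8 + ((2 : ℕ) : ℂ))) = 1 := by
    push_cast
    exact finrank_degree_two H
  rw [h5] at h4
  norm_num at h4

end Pool.Agent.Results.MP_151aca_mp.MomentumZeroDegreeTwo
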